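import Pool.Agent.Q19.Transv

/-!
# Transversal probability is not always attained at a cyclic `p`-subgroup with small core index

The group is `G = ((C₄ × C₄) ⋊ C₄) × Q₈` of order 512. The cyclic subgroup `H` of order four
generated by `((1, 0, 0), i)` has `P_G(H) = 3^16 / 2^96 < 2^(-64)`, while every subgroup `K` whose
core has index at most two in `K` has `P_G(K) ≥ 2^(-64)`.
-/

namespace Pool.Agent.Results.MP_443384_al.CyclicFails

open Pool.Agent.Q19.Transv

/-- The group of order 64: `(C₄ × C₄) ⋊ C₄`, where the generator `g` of the last factor maps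
`(i, j)` to `(i, i - j)`. -/
structure G1 where
  i : ZMod 4
  j : ZMod 4
  k : ZMod 4
deriving DecidableEq, Fintype

namespace G1

lemma ext' {a b : G1} (h1 : a.i = b.i) (h2 : a.j = b.j) (h3 : a.k = b.k) : a = b := by
  cases a; cases b; simp_all

instance : Mul G1 := ⟨fun a b => ⟨a.i + b.i, a.j + b.j + a.k ^ 2 * b.i + 2 * a.k ^ 2 * b.j, a.k + b.k⟩⟩
instance : One G1 := ⟨⟨0, 0, 0⟩⟩
instance : Inv G1 := ⟨fun a => ⟨-a.i, -(a.j + a.k ^ 2 * a.i + 2 * a.k ^ 2 * a.j), -a.k⟩⟩

@[simp] lemma mul_i (a b : G1) : (a * b).i = a.i + b.i := rfl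
@[simp] lemma mul_j (a b : G1) : (a * b).j = a.j + b.j + a.k ^ 2 * b.i + 2 * a.k ^ 2 * b.j := rfl
@[simp] lemma mul_k (a b : G1) : (a * b).k = a.k + b.k := rfl
@[simp] lemma one_i : (1 : G1).i = 0 := rfl
@[simp] lemma one_j : (1 : G1).j = 0 := rfl
@[simp] lemma one_k : (1 : G1).k = 0 := rfl
@[simp] lemma inv_i (a : G1) : (a⁻¹).i = -a.i := rfl
@[simp] lemma inv_j (a : G1) : (a⁻¹).j = -(a.j + a.k ^ 2 * a.i + 2 * a.k ^ 2 * a.j) := rfl
@[simp] lemma inv_k (a : G1) : (a⁻¹).k = -a.k := rfl

lemma aux1 : ∀ k l : ZMod 4, (k + l) ^ 2 = k ^ 2 + l ^ 2 + 2 * k ^ 2 * l ^ 2 := by decide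
lemma aux2 : ∀ k l : ZMod 4, 2 * (k + l) ^ 2 = 2 * k ^ 2 + 2 * l ^ 2 := by decide
lemma aux3 : ∀ k : ZMod 4, 4 * k = 0 := by decide

instance : Group G1 := Group.ofLeftAxioms
  (by
    intro a b c
    apply ext'
    · simp only [mul_i]; ring
    · simp only [mul_j, mul_i, mul_k]
      have h1 := aux1 a.k b.k
      have h2 := aux2 a.k b.k
      have h3 := aux3 (a.k ^ 2 * b.k ^ 2 * c.j)
      linear_combination c.i * h1 + c.j * h2 - h3
    · simp only [mul_k]; ring)
  (by
    intro a
    apply ext'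
    · simp
    · simp
    · simp)
  (by
    intro a
    apply ext'
    · simp
    · simp only [mul_j, inv_j, inv_k, one_j]
      ring
    · simp)

lemma card : Fintype.card G1 = 64 := by
  have : Fintype.card G1 = Fintype.card (ZMod 4 × ZMod 4 × ZMod 4) := by
    apply Fintype.card_congr
    exact ⟨fun a => (a.i, a.j, a.k), fun a => ⟨a.1, a.2.1, a.2.2⟩, fun a => rfl, fun a => rfl⟩
  rw [this]
  simp [ZMod.card]

end G1

/-- The counterexample, of order 512. -/
abbrev G : Type := G1 × QuaternionGroup 2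

lemma card_G : Nat.card G = 512 := by
  rw [Nat.card_prod, Nat.card_eq_fintype_card, Nat.card_eq_fintype_card, G1.card, QuaternionGroup.card]

/-- The generator of the subgroup `HH`. -/
def h : G := (⟨1, 0, 0⟩, QuaternionGroup.a 1)

lemma h2 : h ^ 2 = (⟨2, 0, 0⟩, QuaternionGroup.a 2) := by decide
lemma h4 : h ^ 4 = 1 := by decide
lemma h2_ne : h ^ 2 ≠ 1 := by decide


/-- The size of the double coset of `y`. -/
def c (y : G) : ℕ :=
  if y.1.k.val % 2 = 1 then 4 else
    match y.2 with
    | QuaternionGroup.a _ => 1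
    | QuaternionGroup.xa _ => 2

set_option maxRecDepth 100000 in
lemma count4 : ((Finset.univ : Finset G).filter (fun y => c y = 4)).card = 256 := by decide
set_option maxRecDepth 100000 in
lemma count2 : ((Finset.univ : Finset G).filter (fun y => c y = 2)).card = 128 := by decide
set_option maxRecDepth 100000 in
lemma count1 : ((Finset.univ : Finset G).filter (fun y => c y = 1)).card = 128 := by decide


set_option maxRecDepth 100000 in
lemma conj1 : ∀ y : G, c y = 1 → y⁻¹ * h * y = h := by decide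

set_option maxRecDepth 100000 in
lemma conj2 : ∀ y : G, c y = 2 → y⁻¹ * h * y ≠ 1 ∧ y⁻¹ * h * y ≠ h ∧ y⁻¹ * h * y ≠ h ^ 2 ∧
    y⁻¹ * h * y ≠ h ^ 3 ∧ y⁻¹ * h ^ 2 * y = h ^ 2 := by decide

set_option maxRecDepth 100000 in
lemma conj4 : ∀ y : G, c y = 4 → y⁻¹ * h * y ≠ 1 ∧ y⁻¹ * h * y ≠ h ∧ y⁻¹ * h * y ≠ h ^ 2 ∧
    y⁻¹ * h * y ≠ h ^ 3 ∧ y⁻¹ * h ^ 2 * y ≠ 1 ∧ y⁻¹ * h ^ 2 * y ≠ h ∧ y⁻¹ * h ^ 2 * y ≠ h ^ 2 ∧
    y⁻¹ * h ^ 2 * y ≠ h ^ 3 := by decide

/-- The subgroup of order four. -/
abbrev HH : Subgroup G := Subgroup.zpowers h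

lemma order_h : orderOf h = 4 := by
  have := orderOf_eq_prime_pow (p := 2) (n := 1) (x := h) (by simpa using h2_ne) (by simpa using h4)
  simpa using this

lemma card_HH : Nat.card HH = 4 := by rw [Nat.card_zpowers, order_h]

lemma mem_HH (z : G) : z ∈ HH ↔ z = 1 ∨ z = h ∨ z = h ^ 2 ∨ z = h ^ 3 := by
  constructor
  · intro hz
    rw [← mem_powers_iff_mem_zpowers, Submonoid.mem_powers_iff] at hz
    obtain ⟨n, rfl⟩ := hz
    rw [← pow_mod_orderOf, order_h]
    have : n % 4 < 4 := Nat.mod_lt _ (by norm_num)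
    interval_cases n % 4 <;> simp
  · rintro (rfl | rfl | rfl | rfl)
    · exact one_mem _
    · exact Subgroup.mem_zpowers h
    · exact pow_mem (Subgroup.mem_zpowers h) 2
    · exact pow_mem (Subgroup.mem_zpowers h) 3

lemma tt_eq (y : G) : tt HH HH (cA HH HH (y : G ⧸ HH)) = c y := by
  have hmul := tt_mul HH HH (y : G ⧸ HH)
  set S := MulAction.stabilizer HH (y : G ⧸ HH) with hS
  rw [card_HH] at hmul
  let hh : HH := ⟨h, Subgroup.mem_zpowers h⟩
  have hhS : hh ∈ S ↔ y⁻¹ * h * y ∈ HH := mem_stab HH HH hh y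
  have hh2S : hh ^ 2 ∈ S ↔ y⁻¹ * h ^ 2 * y ∈ HH := mem_stab HH HH (hh ^ 2) y
  have hdvd : Nat.card S ∣ 4 := ⟨_, by rw [← hmul]; ring⟩
  have htop : hh ∈ S → Nat.card S = 4 := by
    intro hm
    have : S = ⊤ := by
      rw [eq_top_iff]
      rintro ⟨z, hz⟩ -
      obtain ⟨n, hn⟩ := id hz
      have : (⟨z, hz⟩ : HH) = hh ^ n := Subtype.ext hn.symm
      rw [this]
      exact zpow_mem hm n
    rw [this, Subgroup.card_top, card_HH]
  have hnotop : hh ∉ S → Nat.card S ≠ 4 := by
    intro hm hcard
    apply hm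
    rw [← card_HH] at hcard
    rw [Subgroup.eq_top_of_card_eq S hcard]
    exact Subgroup.mem_top _
  have hle : Nat.card S ≤ 4 := Nat.le_of_dvd (by norm_num) hdvd
  have hSpos : 0 < Nat.card S := Nat.card_pos
  have hc : c y = 1 ∨ c y = 2 ∨ c y = 4 := by
    unfold c
    split
    · simp
    · split <;> simp
  rcases hc with hc | hc | hc
  · have h1 := conj1 y hc
    have h3 := htop (hhS.mpr (by rw [h1]; exact Subgroup.mem_zpowers h))
    rw [h3] at hmul
    omega
  · obtain ⟨h1, h1', h1'', h1''', h5⟩ := conj2 y hc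
    have h3 := hnotop (fun hm => by
      have := (mem_HH _).mp (hhS.mp hm)
      tauto)
    have h4 : hh ^ 2 ∈ S := hh2S.mpr (by rw [h5]; exact pow_mem (Subgroup.mem_zpowers h) 2)
    have h6 : Nat.card S ≠ 1 := by
      intro hcard
      rw [Subgroup.card_eq_one] at hcard
      rw [hcard, Subgroup.mem_bot] at h4
      exact h2_ne (congrArg Subtype.val h4)
    have h7 : Nat.card S ≠ 3 := by
      intro h; rw [h] at hdvd; omega
    have h8 : Nat.card S = 2 := by omega
    rw [h8] at hmul
    omega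
  · obtain ⟨h1, h1', h1'', h1''', h5, h5', h5'', h5'''⟩ := conj4 y hc
    have hn1 : hh ∉ S := fun hm => by
      have := (mem_HH _).mp (hhS.mp hm)
      tauto
    have hn2 : hh ^ 2 ∉ S := fun hm => by
      have := (mem_HH _).mp (hh2S.mp hm)
      tauto
    have hbot : S = ⊥ := by
      rw [eq_bot_iff]
      rintro ⟨z, hz⟩ hzS
      rw [Subgroup.mem_bot]
      rcases (mem_HH z).mp hz with h0 | h0 | h0 | h0
      · exact Subtype.ext h0
      · exact absurd (by have : (⟨z, hz⟩ : HH) = hh := Subtype.ext h0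
                         rwa [this] at hzS) hn1
      · exact absurd (by have : (⟨z, hz⟩ : HH) = hh ^ 2 := Subtype.ext h0
                         rwa [this] at hzS) hn2
      · have h3 : (⟨z, hz⟩ : HH) = hh ^ 3 := Subtype.ext h0
        have h4' : hh = (hh ^ 3)⁻¹ := by
          rw [eq_inv_iff_mul_eq_one, ← pow_succ']
          exact Subtype.ext h4
        rw [h3] at hzS
        exact absurd (by rw [h4']; exact inv_mem hzS) hn1
    rw [hbot, Subgroup.card_bot] at hmul
    omega


lemma P_HH : P HH HH = (1 / 2) ^ 16 * (3 / 32) ^ 16 := by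
  classical
  have := Fintype.ofFinite (Dbl HH HH)
  have hS : ∀ ω : Dbl HH HH, tt HH HH ω ∈ ({1, 2, 4} : Finset ℕ) := by
    intro ω
    induction ω using Quotient.inductionOn with
    | h a =>
      induction a using QuotientGroup.induction_on with
      | H y =>
        have : tt HH HH (Quotient.mk _ (y : G ⧸ HH)) = c y := tt_eq y
        rw [this]
        unfold c
        split
        · simp
        · split <;> simp
  have hcnt : ∀ j m, ((Finset.univ : Finset G).filter (fun y => c y = j)).card = 4 * (j * m) → 0 < j →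
      ((Finset.univ : Finset (Dbl HH HH)).filter (fun ω => tt HH HH ω = j)).card = m := by
    intro j m hm hj
    have h1 := card_size HH HH j
    rw [card_HH] at h1
    have h2 : Nat.card {y : G // tt HH HH (cA HH HH (y : G ⧸ HH)) = j} = 4 * (j * m) := by
      rw [Nat.card_congr (Equiv.subtypeEquivRight (q := fun y : G => c y = j) (fun y => by rw [tt_eq])),
        Nat.card_eq_fintype_card, Fintype.card_subtype, hm]
    rw [h2] at h1
    have h3 : j * ((Finset.univ : Finset (Dbl HH HH)).filter (fun ω => tt HH HH ω = j)).card = j * m :=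
      Nat.eq_of_mul_eq_mul_left (by norm_num : 0 < 4) h1
    exact Nat.eq_of_mul_eq_mul_left hj h3
  rw [P_by_size HH HH rfl {1, 2, 4} hS]
  rw [Finset.prod_insert (by decide), Finset.prod_insert (by decide), Finset.prod_singleton]
  rw [hcnt 1 32 count1 (by norm_num), hcnt 2 16 count2 (by norm_num), hcnt 4 16 count4 (by norm_num)]
  norm_num [fac, Nat.factorial]

lemma P_HH_lt : P HH HH < (1 / 2) ^ 64 := by
  rw [P_HH]
  norm_num

/-- If all double cosets of `K` have size at most two and at least `f` left cosets are double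
cosets, the transversal probability is at least `(1/2) ^ s` whenever `2 s + f ≥ (G : K)`. -/
lemma P_lower {Γ : Type*} [Group Γ] [Finite Γ] (K : Subgroup Γ) (s : ℕ)
    (ht : ∀ a : Γ ⧸ K, tt K K (cA K K a) ≤ 2)
    (hs : K.index ≤ 2 * s + Nat.card {a : Γ ⧸ K // tt K K (cA K K a) = 1}) :
    (1 / 2) ^ s ≤ P K K := by
  classical
  have := Fintype.ofFinite (Dbl K K)
  have hS : ∀ ω : Dbl K K, tt K K ω ∈ ({1, 2} : Finset ℕ) := by
    intro ω
    have hpos := tt_pos K K ω
    induction ω using Quotient.inductionOn with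
    | h a =>
      have : tt K K (Quotient.mk _ a) ≤ 2 := ht a
      simp only [Finset.mem_insert, Finset.mem_singleton]
      omega
  rw [P_by_size K K rfl {1, 2} hS, Finset.prod_insert (by decide), Finset.prod_singleton]
  have h1 : fac 1 = 1 := by norm_num [fac]
  have h2 : fac 2 = 1 / 2 := by norm_num [fac, Nat.factorial]
  rw [h1, h2, one_pow, one_mul]
  apply pow_le_pow_of_le_one (by norm_num) (by norm_num)
  have e1 := card_size K K 1
  have e2 := card_size K K 2
  have := Fintype.ofFinite Γ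
  have := Fintype.ofFinite (Γ ⧸ K)
  -- number of elements
  have e3 : Nat.card {y : Γ // tt K K (cA K K (y : Γ ⧸ K)) = 1} + Nat.card {y : Γ // tt K K (cA K K (y : Γ ⧸ K)) = 2} =
      Nat.card Γ := by
    rw [Nat.card_eq_fintype_card, Nat.card_eq_fintype_card, Nat.card_eq_fintype_card, Fintype.card_subtype,
      Fintype.card_subtype, ← Finset.card_univ,
      ← Finset.card_filter_add_card_filter_not (s := Finset.univ) (fun y : Γ => tt K K (cA K K (y : Γ ⧸ K)) = 1)]
    congr 2
    apply Finset.filter_congr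
    intro y _
    have hpos := tt_pos K K (cA K K (y : Γ ⧸ K))
    have := ht (y : Γ ⧸ K)
    omega
  have e4 : Nat.card Γ = Nat.card K * K.index := (Subgroup.card_mul_index K).symm
  have e5 : Nat.card {y : Γ // tt K K (cA K K (y : Γ ⧸ K)) = 1} =
      Nat.card K * Nat.card {a : Γ ⧸ K // tt K K (cA K K a) = 1} :=
    QuotientGroup.card_preimage_mk K {a : Γ ⧸ K | tt K K (cA K K a) = 1}
  rw [← e2, e5, e4, ← mul_add] at e3
  have e6 := Nat.eq_of_mul_eq_mul_left Nat.card_pos e3
  omega


lemma tt_eq_index {Γ : Type*} [Group Γ] [Finite Γ] (K : Subgroup Γ) (a : Γ ⧸ K) :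
    tt K K (cA K K a) = (MulAction.stabilizer K a).index := by
  have h1 := tt_mul K K a
  have h2 := Subgroup.card_mul_index (MulAction.stabilizer K a)
  rw [← h2, mul_comm] at h1
  exact Nat.eq_of_mul_eq_mul_left Nat.card_pos h1

lemma tt_le_core {Γ : Type*} [Group Γ] [Finite Γ] (K : Subgroup Γ) (a : Γ ⧸ K) :
    tt K K (cA K K a) ≤ K.normalCore.relIndex K := by
  rw [tt_eq_index]
  induction a using QuotientGroup.induction_on with
  | H y =>
    apply Subgroup.index_antitone
    · intro z hz
      rw [mem_stab]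
      rw [Subgroup.mem_subgroupOf] at hz
      have := (inferInstance : K.normalCore.Normal).conj_mem _ hz y⁻¹
      rw [inv_inv] at this
      exact K.normalCore_le this
    
set_option maxRecDepth 100000 in
lemma invol : ∀ k : G, k ^ 2 = 1 → k.1.k ^ 2 = 0 ∧ (k.2 = QuaternionGroup.a 0 ∨ k.2 = QuaternionGroup.a 2) := by decide

lemma centr : ∀ (q r : QuaternionGroup 2), (q = QuaternionGroup.a 0 ∨ q = QuaternionGroup.a 2) → q * r = r * q := by decide

set_option maxRecDepth 100000 in
lemma countM : ((Finset.univ : Finset G).filter (fun y => y.1.k ^ 2 = 0)).card = 256 := by decide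

lemma comm_of_even (k y : G) (hk : k ^ 2 = 1) (hy : y.1.k ^ 2 = 0) : y⁻¹ * k * y = k := by
  obtain ⟨h1, h2⟩ := invol k hk
  have h3 : k * y = y * k := by
    refine Prod.ext ?_ ?_
    · apply G1.ext'
      · simp [add_comm]
      · simp only [Prod.fst_mul, G1.mul_j, h1, hy]
        ring
      · simp [add_comm]
    · exact centr _ _ h2
  rw [mul_assoc, h3, inv_mul_cancel_left]

/-- Cyclic `2`-subgroups with core of index at most two have large transversal probability. -/
lemma P_K (K : Subgroup G) (hcore : K.normalCore.relIndex K ≤ 2) : (1 / 2) ^ 64 ≤ P K K := by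
  have ht : ∀ a : G ⧸ K, tt K K (cA K K a) ≤ 2 := fun a => (tt_le_core K a).trans hcore
  apply P_lower K 64 ht
  have hcard := Subgroup.card_mul_index K
  rw [card_G] at hcard
  have hpos : 0 < Nat.card K := Nat.card_pos
  rcases Nat.lt_or_ge (Nat.card K) 4 with hlt | hge
  · interval_cases hK : Nat.card K
    · -- trivial subgroup
      have h1 : ∀ a : G ⧸ K, tt K K (cA K K a) = 1 := by
        intro a
        have h2 := tt_dvd K K (cA K K a)
        rw [hK] at h2
        exact Nat.dvd_one.mp h2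
      have h2 : Nat.card {a : G ⧸ K // tt K K (cA K K a) = 1} = K.index := by
        rw [Nat.card_congr (Equiv.subtypeUnivEquiv h1)]
        rfl
      rw [h2]
      omega
    · -- order two
      have e5 : Nat.card {y : G // tt K K (cA K K (y : G ⧸ K)) = 1} =
          Nat.card K * Nat.card {a : G ⧸ K // tt K K (cA K K a) = 1} :=
        QuotientGroup.card_preimage_mk K {a : G ⧸ K | tt K K (cA K K a) = 1}
      rw [hK] at e5
      have hM : 256 ≤ Nat.card {y : G // tt K K (cA K K (y : G ⧸ K)) = 1} := by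
        rw [← countM, ← Fintype.card_subtype, ← Nat.card_eq_fintype_card]
        apply Nat.card_le_card_of_injective (fun y : {y : G // y.1.k ^ 2 = 0} =>
          (⟨y.1, ?_⟩ : {y : G // tt K K (cA K K (y : G ⧸ K)) = 1}))
        · intro a b hab
          have h := Subtype.ext_iff.mp hab
          exact Subtype.ext h
        · rw [tt_eq_index]
          have : MulAction.stabilizer K ((y.1 : G) : G ⧸ K) = ⊤ := by
            rw [eq_top_iff]
            intro z _
            rw [mem_stab, comm_of_even (z : G) y.1 ?_ y.2]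
            · exact z.2
            · have hz : z ^ 2 = 1 := by
                have h := pow_card_eq_one' (x := z)
                rwa [hK] at h
              exact congrArg Subtype.val hz
          rw [this, Subgroup.index_top]
      omega
    · omega
  · have : 4 * K.index ≤ 512 := by
      rw [← hcard]
      exact Nat.mul_le_mul_right _ hge
    omega

/-- The transversal probability of a finite group. -/
noncomputable def tp (G : Type) [Group G] [Finite G] : ℚ :=
  letI := Fintype.ofFinite (Subgroup G)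
  Finset.univ.inf' ⟨⊤, Finset.mem_univ _⟩ (fun H : Subgroup G => P H H)

lemma tp_le (G : Type) [Group G] [Finite G] (H : Subgroup G) : tp G ≤ P H H :=
  letI := Fintype.ofFinite (Subgroup G)
  Finset.inf'_le _ (Finset.mem_univ H)

/-- It is not true that every nontrivial finite group `G` has a cyclic `p`-subgroup `H`, `p` a prime
divisor of `|G|`, with `P_G(H) = tp(G)` and `(H : core_G(H)) ≤ p`. -/
theorem result : ¬ ∀ (G : Type) [Group G] [Finite G] [Nontrivial G],
    ∃ p : ℕ, p.Prime ∧ p ∣ Nat.card G ∧ ∃ H : Subgroup G, IsCyclic H ∧ IsPGroup p H ∧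
      P H H = tp G ∧ H.normalCore.relIndex H ≤ p := by
  intro hall
  have : Nontrivial G := ⟨1, h, by decide⟩
  obtain ⟨p, hp, hdvd, K, -, -, hK, hcore⟩ := hall G
  have hp2 : p = 2 := by
    rw [card_G, show 512 = 2 ^ 9 by norm_num] at hdvd
    exact (Nat.prime_dvd_prime_iff_eq hp Nat.prime_two).mp (hp.dvd_of_dvd_pow hdvd)
  subst hp2
  have h1 := P_K K hcore
  have h2 := P_HH_lt
  have h3 := tp_le G HH
  rw [hK] at h1
  linarith

end Pool.Agent.Results.MP_443384_al.CyclicFails
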